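import Mathlib
import Pool.Agent.Helper79.GL4.GoalsA

/-!
# GL4: the numerical statements LNUM1, LNUM2, LNUM3 (MP_27a5f8_al; helper59)
-/

namespace GL4

namespace LNum

/-- one term of the sum -/
def tm (d : ℕ × ℕ) : ℚ := (1 - 1 / (d.1 : ℚ)) / d.2

theorem inv_le {d : ℕ} (h : 2 ≤ d) : (1 : ℚ) / d ≤ 1 / 2 := by
  have h1 : (2 : ℚ) ≤ d := by exact_mod_cast h
  exact one_div_le_one_div_of_le (by norm_num) h1

theorem inv_pos' {d : ℕ} (h : 2 ≤ d) : (0 : ℚ) < 1 / d := by
  have h1 : (2 : ℚ) ≤ d := by exact_mod_cast h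
  positivity

theorem tm_ge {d : ℕ × ℕ} (h : 2 ≤ d.1) (h' : d.2 = 1 ∨ d.2 = 2) : (1 : ℚ) / 4 ≤ tm d := by
  have h1 := inv_le h
  unfold tm
  rcases h' with h' | h' <;> rw [h'] <;> norm_num at h1 ⊢ <;> linarith

theorem tm_one {d : ℕ × ℕ} (h : 2 ≤ d.1) (h' : d.2 = 1) : (1 : ℚ) / 2 ≤ tm d := by
  have h1 := inv_le h
  unfold tm
  rw [h']; norm_num at h1 ⊢; linarith

theorem sum_ge (D : Multiset (ℕ × ℕ)) (q : ℕ)
    (hD : ∀ d ∈ D, 2 ≤ d.1 ∧ d.1 ∣ q + 1 ∧ (d.2 = 1 ∨ d.2 = 2)) :
    (Multiset.card D : ℚ) * (1 / 4) ≤ (D.map tm).sum := by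
  have h := Multiset.card_nsmul_le_sum (s := D.map tm) (a := (1 / 4 : ℚ)) (by
    intro x hx
    obtain ⟨d, hd, rfl⟩ := Multiset.mem_map.1 hx
    exact tm_ge (hD d hd).1 (hD d hd).2.2)
  rw [Multiset.card_map, nsmul_eq_mul] at h
  exact h

/-- the case of one term `(d, 1)` -/
theorem one_term {q c d : ℕ} (hq : 2 ≤ q) (hc : 1 ≤ c) (hd : 2 ≤ d) (hdq : d ∣ q + 1)
    (h : (1 : ℚ) - 1 / d = 1 / 2 + (q - 1) / (2 * c * (q + 1))) :
    c = 1 ∨ (c = 2 ∧ q = 5) := by
  obtain ⟨e, he⟩ := hdq
  have hq' : (2 : ℚ) ≤ q := by exact_mod_cast hq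
  have hc' : (1 : ℚ) ≤ c := by exact_mod_cast hc
  have hd' : (2 : ℚ) ≤ d := by exact_mod_cast hd
  have he' : (q : ℚ) + 1 = d * e := by exact_mod_cast he
  have h1 : (c : ℚ) * (q + 1) * (d - 2) = (q - 1) * d := by
    have h2 : (0 : ℚ) < d := by linarith
    have h3 : (0 : ℚ) < 2 * c * (q + 1) := by positivity
    field_simp at h
    linarith
  have h4 : (c : ℚ) * e * (d - 2) = d * e - 2 := by
    have h2 : (d : ℚ) ≠ 0 := by positivity
    apply mul_left_cancel₀ h2
    have h5 : (q : ℚ) - 1 = d * e - 2 := by linarith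
    rw [he', h5] at h1
    linarith
  have h5 : (e : ℤ) * (d - c * (d - 2)) = 2 := by
    have : (e : ℚ) * (d - c * (d - 2)) = 2 := by linarith
    exact_mod_cast this
  have he0 : 0 < e := by
    rcases Nat.eq_zero_or_pos e with h0 | h0
    · rw [h0] at he; omega
    · exact h0
  have he2 : e ∣ 2 := by
    have : (e : ℤ) ∣ 2 := ⟨_, h5.symm⟩
    exact_mod_cast this
  have he3 : e = 1 ∨ e = 2 := (Nat.dvd_prime Nat.prime_two).1 he2
  rcases he3 with rfl | rfl
  · have h6 : ((c : ℤ) - 1) * (d - 2) = 0 := by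
      push_cast at h5; linarith
    rcases mul_eq_zero.1 h6 with h7 | h7
    · left; omega
    · exfalso; omega
  · have h6 : ((c : ℤ) - 1) * (d - 2) = 1 := by
      push_cast at h5; linarith
    have h7 : ((c : ℤ) - 1) = 1 := by
      rcases Int.mul_eq_one_iff_eq_one_or_neg_one.1 h6 with h7 | h7
      · exact h7.1
      · exfalso; omega
    have h8 : (d : ℤ) - 2 = 1 := by rw [h7, one_mul] at h6; exact h6
    right
    constructor
    · omega
    · have : d = 3 := by omega
      omega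

end LNum

open LNum

theorem lnum1 : LNUM1 := by
  intro p q w c D hp _ _ hwq hw hc hcw _ hD heq
  obtain ⟨s, hs⟩ := hwq
  have hs0 : 0 < s ∨ s = 0 := by omega
  have hw3 : 3 ≤ w := by
    have := Nat.le_of_dvd (by omega) hcw
    omega
  have hcw' : c ≤ w - 1 := Nat.le_of_dvd (by omega) hcw
  have hw' : (3 : ℚ) ≤ w := by exact_mod_cast hw3
  have hc' : (2 : ℚ) ≤ c := by exact_mod_cast hc
  have hq0 : (0 : ℚ) ≤ q := by positivity
  have hsum : (D.map fun d => (1 - 1 / (d.1 : ℚ)) / d.2).sum = (D.map tm).sum := rfl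
  rw [hsum] at heq
  have hS : (D.map tm).sum = 1 / 2 - 1 / (2 * c) + q / ((q + 1) * w * c) := by
    have h1 : (q : ℚ) + 1 ≠ 0 := by positivity
    have h2 : (w : ℚ) ≠ 0 := by positivity
    have h3 : (c : ℚ) ≠ 0 := by positivity
    have h4 : (D.map tm).sum = 1 - 1 / ((q + 1) * w * c) - (w - 1) / (w * c) - (c - 1) / (2 * c) := by
      linarith
    rw [h4]
    field_simp
    ring
  have hlt : (q : ℚ) / ((q + 1) * w * c) < 1 / (2 * c) := by
    rw [div_lt_div_iff₀ (by positivity) (by positivity)]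
    nlinarith [mul_pos (show (0 : ℚ) < c by linarith) (show (0 : ℚ) < w by linarith),
      mul_nonneg hq0 (show (0 : ℚ) ≤ c by linarith),
      mul_nonneg (mul_nonneg hq0 (show (0 : ℚ) ≤ c by linarith)) (show (0 : ℚ) ≤ w - 3 by linarith)]
  have hS1 : (D.map tm).sum < 1 / 2 := by rw [hS]; linarith
  have hS0 : 0 < (D.map tm).sum := by
    rw [hS]
    have h1 : (1 : ℚ) / (2 * c) ≤ 1 / 4 := by
      apply one_div_le_one_div_of_le (by norm_num); linarith
    have h2 : (0 : ℚ) ≤ q / ((q + 1) * w * c) := by positivity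
    linarith
  have hcard := sum_ge D q hD
  have hcard2 : Multiset.card D < 2 := by
    by_contra hcon
    push Not at hcon
    have : (2 : ℚ) ≤ Multiset.card D := by exact_mod_cast hcon
    linarith
  have hne : Multiset.card D ≠ 0 := by
    intro h0
    rw [Multiset.card_eq_zero] at h0
    rw [h0] at hS0
    simp at hS0
  have hcard1 : Multiset.card D = 1 := by omega
  obtain ⟨a, rfl⟩ := Multiset.card_eq_one.1 hcard1
  obtain ⟨ha1, ha2, ha3⟩ := hD a (Multiset.mem_singleton_self a)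
  rw [Multiset.map_singleton, Multiset.sum_singleton] at hS hS1
  rcases ha3 with ha3 | ha3
  · have := tm_one ha1 ha3
    linarith
  obtain ⟨d, nu⟩ := a
  simp only at ha1 ha2 ha3
  subst ha3
  have hd' : (2 : ℚ) ≤ d := by exact_mod_cast ha1
  obtain ⟨e, he⟩ := ha2
  have he' : (q : ℚ) + 1 = d * e := by exact_mod_cast he
  have h1 : (d : ℚ) * ((q + 1) * w - 2 * q) = (q + 1) * w * c := by
    unfold tm at hS
    simp only at hS
    have h1 : (q : ℚ) + 1 ≠ 0 := by positivity
    have h2 : (w : ℚ) ≠ 0 := by positivity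
    have h3 : (c : ℚ) ≠ 0 := by positivity
    have h4 : (d : ℚ) ≠ 0 := by positivity
    push_cast at hS
    field_simp at hS
    linarith
  have h2 : (q + 1 : ℚ) * w - 2 * q = e * w * c := by
    have h4 : (d : ℚ) ≠ 0 := by positivity
    apply mul_left_cancel₀ h4
    rw [h1, he']; ring
  have hsq : (q : ℚ) = w * s := by exact_mod_cast hs
  have h3 : (e : ℚ) * c = s * (w - 2) + 1 := by
    have h4 : (w : ℚ) ≠ 0 := by positivity
    apply mul_left_cancel₀ h4
    rw [hsq] at h2
    linarith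
  have h3' : (e : ℤ) * c = s * (w - 2) + 1 := by exact_mod_cast h3
  have hsne : s ≠ 0 := by
    rintro rfl
    have : (e : ℤ) * c = 1 := by rw [h3']; simp
    rcases Int.mul_eq_one_iff_eq_one_or_neg_one.1 this with h7 | h7 <;> omega
  by_cases hs1 : s = 1
  · left; rw [hs, hs1, mul_one]
  right
  have hs2 : 2 ≤ s := by omega
  have hdv1 : (e : ℤ) ∣ w * s + 1 := by
    refine ⟨d, ?_⟩
    have : (q : ℤ) + 1 = d * e := by exact_mod_cast he
    have h7 : (q : ℤ) = w * s := by exact_mod_cast hs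
    rw [← h7, this]; ring
  have hdv2 : (e : ℤ) ∣ s * (w - 2) + 1 := ⟨c, h3'.symm⟩
  have hdv3 : (e : ℤ) ∣ 2 * s := by
    have h7 := dvd_sub hdv1 hdv2
    have h8 : ((w : ℤ) * s + 1) - (s * (w - 2) + 1) = 2 * s := by ring
    rwa [h8] at h7
  have hcop : IsCoprime (e : ℤ) (s : ℤ) := by
    obtain ⟨k, hk⟩ := hdv1
    exact ⟨k, -w, by linarith⟩
  have he2 : (e : ℤ) ∣ 2 := hcop.dvd_of_dvd_mul_right hdv3
  have he2' : e ∣ 2 := by exact_mod_cast he2
  have hcw'' : (c : ℤ) ≤ w - 1 := by omega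
  have hw3' : (3 : ℤ) ≤ w := by exact_mod_cast hw3
  rcases (Nat.dvd_prime Nat.prime_two).1 he2' with rfl | rfl
  · exfalso
    push_cast at h3'
    have hs2' : (2 : ℤ) ≤ s := by exact_mod_cast hs2
    nlinarith
  · push_cast at h3'
    have hs2' : (2 : ℤ) ≤ s := by exact_mod_cast hs2
    have hs3 : s ≠ 2 := by
      rintro rfl
      push_cast at h3'
      omega
    have hs3' : (3 : ℤ) ≤ s := by omega
    have h9 : ((s : ℤ) - 2) * (w - 2) ≤ 1 := by nlinarith
    have hse : (s : ℤ) = 3 := by nlinarith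
    have hwe : (w : ℤ) = 3 := by rw [hse] at h9; omega
    have hs3n : s = 3 := by exact_mod_cast hse
    have hw3n : w = 3 := by exact_mod_cast hwe
    rw [hse, hwe] at h3'
    refine ⟨?_, hw3n, by omega⟩
    rw [hs, hs3n, hw3n]

theorem LNum.hS1 {q c : ℕ} {D : Multiset (ℕ × ℕ)} (hq : 2 ≤ q) (hc : 1 ≤ c)
    (heq : (1 : ℚ) - 1 / ((q + 1) * c) =
        (c - 1) / (2 * c) + (D.map fun d => (1 - 1 / (d.1 : ℚ)) / d.2).sum) :
    (D.map tm).sum = 1 / 2 + (q - 1) / (2 * c * (q + 1)) := by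
  have hsum : (D.map fun d => (1 - 1 / (d.1 : ℚ)) / d.2).sum = (D.map tm).sum := rfl
  rw [hsum] at heq
  have h1 : (q : ℚ) + 1 ≠ 0 := by positivity
  have h3 : (c : ℚ) ≠ 0 := by
    have : (1 : ℚ) ≤ c := by exact_mod_cast hc
    positivity
  have h4 : (D.map tm).sum = 1 - 1 / ((q + 1) * c) - (c - 1) / (2 * c) := by linarith
  rw [h4]
  field_simp
  ring

theorem lnum2 : LNUM2 := by
  intro q c D hq hc _ hD heq
  by_cases hc1 : c = 1
  · left; exact hc1
  have hc2 : 2 ≤ c := by omega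
  have hS := LNum.hS1 (by omega) hc heq
  have hq' : (7 : ℚ) ≤ q := by exact_mod_cast hq
  have hc' : (2 : ℚ) ≤ c := by exact_mod_cast hc2
  have hpos : (0 : ℚ) < (q - 1) / (2 * c * (q + 1)) := by
    have : (0 : ℚ) < q - 1 := by linarith
    positivity
  have hlt : ((q : ℚ) - 1) / (2 * c * (q + 1)) < 1 / 4 := by
    rw [div_lt_div_iff₀ (by positivity) (by positivity)]
    nlinarith
  have hcard := sum_ge D q hD
  have hcard2 : Multiset.card D < 3 := by
    by_contra hcon
    push Not at hcon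
    have : (3 : ℚ) ≤ Multiset.card D := by exact_mod_cast hcon
    linarith
  have hne : Multiset.card D ≠ 0 := by
    intro h0
    rw [Multiset.card_eq_zero] at h0
    rw [h0] at hS
    simp only [Multiset.map_zero, Multiset.sum_zero] at hS
    linarith
  have hcases : Multiset.card D = 1 ∨ Multiset.card D = 2 := by omega
  rcases hcases with hcard1 | hcard1
  · obtain ⟨a, rfl⟩ := Multiset.card_eq_one.1 hcard1
    obtain ⟨ha1, ha2, ha3⟩ := hD a (Multiset.mem_singleton_self a)
    rw [Multiset.map_singleton, Multiset.sum_singleton] at hS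
    obtain ⟨d, nu⟩ := a
    simp only at ha1 ha2 ha3
    unfold tm at hS
    simp only at hS
    rcases ha3 with rfl | rfl
    · push_cast at hS
      rw [div_one] at hS
      rcases one_term (by omega) hc ha1 ha2 hS with h | h
      · left; exact h
      · right; left; exact h.1
    · exfalso
      have := inv_pos' ha1
      push_cast at hS
      linarith
  · obtain ⟨a, b, rfl⟩ := Multiset.card_eq_two.1 hcard1
    obtain ⟨ha1, ha2, ha3⟩ := hD a (by simp)
    obtain ⟨hb1, hb2, hb3⟩ := hD b (by simp)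
    have hS' : tm a + tm b = 1 / 2 + (q - 1) / (2 * c * (q + 1)) := by
      rw [← hS]
      simp
    have hta := tm_ge ha1 ha3
    have htb := tm_ge hb1 hb3
    rcases ha3 with ha3 | ha3
    · have := tm_one ha1 ha3
      linarith
    rcases hb3 with hb3 | hb3
    · have := tm_one hb1 hb3
      linarith
    obtain ⟨d1, nu1⟩ := a
    obtain ⟨d2, nu2⟩ := b
    simp only at ha1 ha2 ha3 hb1 hb2 hb3
    subst ha3 hb3
    unfold tm at hS'
    simp only at hS'
    push_cast at hS'
    -- `c * y = (q - 1) / (q + 1)`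
    have hy : (c : ℚ) * (1 - 1 / d1 - 1 / d2) = (q - 1) / (q + 1) := by
      have h5 : ((q : ℚ) - 1) / (2 * c * (q + 1)) = ((q - 1) / (q + 1)) / (2 * c) := by
        rw [div_div]; ring_nf
      rw [h5] at hS'
      have h6 : (1 : ℚ) - 1 / d1 - 1 / d2 = ((q - 1) / (q + 1)) / c := by
        have h7 : ((q - 1 : ℚ) / (q + 1)) / c = 2 * (((q - 1) / (q + 1)) / (2 * c)) := by
          field_simp
        rw [h7]
        linarith
      rw [h6]
      field_simp
    have hy1 : ((q : ℚ) - 1) / (q + 1) < 1 := by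
      rw [div_lt_one (by positivity)]; linarith
    have hy2 : (3 : ℚ) / 4 ≤ (q - 1) / (q + 1) := by
      rw [div_le_div_iff₀ (by norm_num) (by positivity)]; linarith
    -- values of `y`
    have hval : ∀ a b : ℕ, 2 ≤ a → 2 ≤ b → a ≤ b →
        (1 : ℚ) - 1 / a - 1 / b = 0 ∨ (1 : ℚ) - 1 / a - 1 / b = 1 / 6 ∨
          (1 : ℚ) / 4 ≤ 1 - 1 / a - 1 / b := by
      intro a b ha hb hab
      rcases Nat.lt_or_ge a 3 with h | h
      · have ha2 : a = 2 := by omega
        subst ha2
        rcases Nat.lt_or_ge b 4 with h' | h'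
        · have : b = 2 ∨ b = 3 := by omega
          rcases this with rfl | rfl
          · left; norm_num
          · right; left; norm_num
        · right; right
          have h8 : (4 : ℚ) ≤ b := by exact_mod_cast h'
          have h9 : (1 : ℚ) / b ≤ 1 / 4 := one_div_le_one_div_of_le (by norm_num) h8
          push_cast
          linarith
      · right; right
        have h8 : (3 : ℚ) ≤ a := by exact_mod_cast h
        have h9 : (1 : ℚ) / a ≤ 1 / 3 := one_div_le_one_div_of_le (by norm_num) h8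
        have h10 : (3 : ℚ) ≤ b := by exact_mod_cast (h.trans hab)
        have h11 : (1 : ℚ) / b ≤ 1 / 3 := one_div_le_one_div_of_le (by norm_num) h10
        linarith
    have hval' : (1 : ℚ) - 1 / d1 - 1 / d2 = 0 ∨ (1 : ℚ) - 1 / d1 - 1 / d2 = 1 / 6 ∨
          (1 : ℚ) / 4 ≤ 1 - 1 / d1 - 1 / d2 := by
      rcases le_total d1 d2 with h | h
      · exact hval d1 d2 ha1 hb1 h
      · have h12 := hval d2 d1 hb1 ha1 h
        have h13 : (1 : ℚ) - 1 / d2 - 1 / d1 = 1 - 1 / d1 - 1 / d2 := by ring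
        rw [h13] at h12
        exact h12
    rcases hval' with h | h | h
    · rw [h] at hy
      linarith
    · rw [h] at hy
      have h14 : (c : ℚ) < 6 := by linarith
      have h15 : (9 : ℚ) / 2 ≤ c := by linarith
      have h16 : c < 6 := by exact_mod_cast h14
      have h17 : 4 < c := by
        by_contra hcon
        push Not at hcon
        have : (c : ℚ) ≤ 4 := by exact_mod_cast hcon
        linarith
      omega
    · have h14 : (c : ℚ) < 4 := by nlinarith
      have h16 : c < 4 := by exact_mod_cast h14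
      omega

theorem lnum3 : LNUM3 := by
  intro q c D hq hq2 hc _ hD heq
  have hS := LNum.hS1 hq hc heq
  have hq' : (2 : ℚ) ≤ q := by exact_mod_cast hq
  have hc' : (1 : ℚ) ≤ c := by exact_mod_cast hc
  have hpos : (0 : ℚ) < (q - 1) / (2 * c * (q + 1)) := by
    have : (0 : ℚ) < q - 1 := by linarith
    positivity
  have hlt : ((q : ℚ) - 1) / (2 * c * (q + 1)) < 1 / 2 := by
    rw [div_lt_div_iff₀ (by positivity) (by positivity)]
    nlinarith
  have hge : (Multiset.card D : ℚ) * (1 / 2) ≤ (D.map tm).sum := by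
    have h := Multiset.card_nsmul_le_sum (s := D.map tm) (a := (1 / 2 : ℚ)) (by
      intro x hx
      obtain ⟨d, hd, rfl⟩ := Multiset.mem_map.1 hx
      exact tm_one (hD d hd).1 (hD d hd).2.2)
    rw [Multiset.card_map, nsmul_eq_mul] at h
    exact h
  have hcard2 : Multiset.card D < 2 := by
    by_contra hcon
    push Not at hcon
    have : (2 : ℚ) ≤ Multiset.card D := by exact_mod_cast hcon
    linarith
  have hne : Multiset.card D ≠ 0 := by
    intro h0
    rw [Multiset.card_eq_zero] at h0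
    rw [h0] at hS
    simp only [Multiset.map_zero, Multiset.sum_zero] at hS
    linarith
  obtain ⟨a, rfl⟩ := Multiset.card_eq_one.1 (show Multiset.card D = 1 by omega)
  obtain ⟨ha1, ha2, ha3⟩ := hD a (Multiset.mem_singleton_self a)
  rw [Multiset.map_singleton, Multiset.sum_singleton] at hS
  obtain ⟨d, nu⟩ := a
  simp only at ha1 ha2 ha3
  subst ha3
  unfold tm at hS
  simp only at hS
  push_cast at hS
  rw [div_one] at hS
  rcases one_term hq hc ha1 ha2 hS with h | h
  · exact h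
  · exfalso
    obtain ⟨_, rfl⟩ := h
    omega

end GL4

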